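import Pool.Agent.Lib.MP_6bc78b_nt.MS.QZ.Iface2
import Pool.Agent.Lib.MP_6bc78b_nt.MS.QZ.H31.Nrb
import Pool.Agent.Lib.MP_6bc78b_nt.MS.QZ.H59.Pid
import Pool.Agent.Lib.MP_6bc78b_nt.MS.QZ.H67.Cfb
import Pool.Agent.Lib.MP_6bc78b_nt.MS.P4.H30.Zfac

/-! Project MS, Part QZ, module BAD: the exceptional zeros of one block. -/

set_option autoImplicit false

open Complex Filter Topology MeasureTheory ArithmeticFunction

namespace Pool.Agent.Lib.MP_6bc78b_nt.MS.QZ.H19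

open Pool.Agent.Lib.MP_6bc78b_nt.MS Pool.Agent.Lib.MP_6bc78b_nt.MS.P1
open Pool.Agent.Lib.MP_6bc78b_nt.MS.QZ

/-- Chebyshev's inequality for a finite weighted sum. -/
theorem cheb {s : Set ℝ} (hs : s.Finite) (w g : ℝ → ℝ) (hw : ∀ γ, 0 ≤ w γ) (hg : ∀ γ, 0 ≤ g γ)
    (t : Set ℝ) (ht : t ⊆ s) (B : ℝ) (hB : ∀ γ ∈ t, B ≤ g γ) :
    B * ∑ᶠ γ ∈ t, w γ ≤ ∑ᶠ γ ∈ s, w γ * g γ := by
  have htf : t.Finite := hs.subset ht
  rw [finsum_mem_eq_finite_toFinset_sum _ htf, finsum_mem_eq_finite_toFinset_sum _ hs,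
    Finset.mul_sum]
  refine (Finset.sum_le_sum (g := fun γ => w γ * g γ) fun γ hγ => ?_).trans
    (Finset.sum_le_sum_of_subset_of_nonneg (Set.Finite.toFinset_subset_toFinset.2 ht)
      fun γ _ _ => mul_nonneg (hw γ) (hg γ))
  rw [mul_comm]
  exact mul_le_mul_of_nonneg_left (hB γ ((Set.Finite.mem_toFinset htf).1 hγ)) (hw γ)

/-- The total weight is larger than `(log log T)^2`. -/
theorem cG_ge {T : ℝ} (hT : 3 < T) (hll : 10 ^ 7 ≤ ll T) : ll T ^ 2 ≤ cG T * Real.log T := by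
  have hTp : 0 < T := by linarith
  have hL0 : 0 < Real.log T := Real.log_pos (by linarith)
  have hllL : ll T ≤ Real.log T := by
    have : Real.log (Real.log T) ≤ Real.log T - 1 := Real.log_le_sub_one_of_pos hL0
    unfold ll
    linarith
  have hL : 10 ^ 7 ≤ Real.log T := hll.trans hllL
  have hT2 : 4 * Real.log T ^ 2 ≤ T := by
    have h1 : Real.log T ^ 3 / (Nat.factorial 3 : ℝ) ≤ Real.exp (Real.log T) :=
      Real.pow_div_factorial_le_exp _ hL0.le 3
    rw [Real.exp_log hTp] at h1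
    have h2 : (Nat.factorial 3 : ℝ) = 6 := by norm_num [Nat.factorial]
    rw [h2] at h1
    have h3 : 24 * Real.log T ^ 2 ≤ Real.log T ^ 3 := by
      have : Real.log T ^ 3 = Real.log T * Real.log T ^ 2 := by ring
      rw [this]
      exact mul_le_mul_of_nonneg_right (by linarith) (sq_nonneg _)
    linarith
  have h4 : T / 4 ≤ cG T * Real.log T := by
    unfold cG DD
    have hpi : Real.sqrt Real.pi ≤ 2 := by
      rw [Real.sqrt_le_left (by norm_num)]
      linarith [Real.pi_lt_d2]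
    have hpi0 : 0 < Real.sqrt Real.pi := Real.sqrt_pos.2 Real.pi_pos
    have h23 : Real.log T ^ (2 / 3 : ℝ) ≤ Real.log T := by
      calc Real.log T ^ (2 / 3 : ℝ) ≤ Real.log T ^ (1 : ℝ) :=
            Real.rpow_le_rpow_of_exponent_le (by linarith) (by norm_num)
        _ = Real.log T := Real.rpow_one _
    have h23' : 0 < Real.log T ^ (2 / 3 : ℝ) := Real.rpow_pos_of_pos hL0 _
    rw [div_div, div_mul_eq_mul_div, div_le_div_iff₀ (by norm_num) (by positivity)]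
    calc T * (Real.log T ^ (2 / 3 : ℝ) * (2 * Real.sqrt Real.pi)) ≤
          T * (Real.log T * (2 * 2)) := by gcongr
      _ = T * Real.log T * 4 := by ring
  have h5 : ll T ^ 2 ≤ Real.log T ^ 2 := pow_le_pow_left₀ (by linarith) hllL 2
  linarith

/-- BAD. -/
theorem bad (hDMV : DmvStatement) (hACN : AcnStatement) (hDEC : DecStatement)
    (hBIU : BiuStatement) (hBLS : BlsStatement) (hSCL : SclStatement) : BadStatement := by
  obtain ⟨C1, T1, hC1, hT1, h1⟩ := hDMV (1 / 2) (by norm_num) (by norm_num)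
  obtain ⟨T2, hT2, h2⟩ := hBIU
  obtain ⟨C3, T3, hC3, hT3, h3⟩ := hBLS
  obtain ⟨T4, hT4, h4⟩ := hSCL
  obtain ⟨C5, T5, hC5, hT5, h5⟩ := hDEC C3 hC3
  refine ⟨C1 * (C5 + 1), max T1 (max (max T2 T3) (max T4 T5)), by positivity,
    lt_max_of_lt_left hT1, ?_⟩
  intro T hT i hi
  have e1 : T1 ≤ T := le_trans (le_max_left _ _) hT
  have e2 : T2 ≤ T := le_trans (le_trans (le_trans (le_max_left _ _) (le_max_left _ _))
    (le_max_right _ _)) hT
  have e3 : T3 ≤ T := le_trans (le_trans (le_trans (le_max_right _ _) (le_max_left _ _))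
    (le_max_right _ _)) hT
  have e4 : T4 ≤ T := le_trans (le_trans (le_trans (le_max_left _ _) (le_max_right _ _))
    (le_max_right _ _)) hT
  have e5 : T5 ≤ T := le_trans (le_trans (le_trans (le_max_right _ _) (le_max_right _ _))
    (le_max_right _ _)) hT
  have hT3 : 3 < T := lt_of_lt_of_le hT1 e1
  have hTp : 0 < T := by linarith
  obtain ⟨hS, -, -, -⟩ := h2 T e2
  obtain ⟨-, hB0, hB1, -, -, -⟩ := h3 T e3 i hi.le
  obtain ⟨hll, -, hdl, -, hRJ, hsm, -, -⟩ := h4 T e4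
  obtain ⟨hD1, hD0⟩ := h5 T e5
  have hll0 : 0 < ll T := lt_of_lt_of_le (by norm_num) hll
  obtain ⟨hd0, hd1⟩ := hdl i hi
  obtain ⟨hR1, -, -⟩ := hRJ i hi
  have hr20 := (hsm i hi.le).2
  have hwj : wj T i = dl T i := if_pos hi
  set r : ℕ := rj T i with hr
  set S : Finset ℕ := SS T i with hSS
  -- the coefficients
  have hBd : H67.Bd 1 (T ^ (1 / 20 : ℝ)) (pS S ^ r) := by
    have h := (H67.bd_pS S (yy T i) fun p hp => H67.mem_SS i p (by linarith) hp).pow r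
    rw [one_pow] at h
    refine h.mono le_rfl ?_
    unfold yy
    rw [← Real.rpow_natCast, ← Real.rpow_mul hTp.le]
    exact Real.rpow_le_rpow_of_exponent_le (by linarith) hr20
  have hpt := H67.point (x := 1 / 20) hT3 (by norm_num)
    (Real.one_le_rpow (by linarith) (by norm_num)) hBd
  have hx : T ^ (1 / 20 : ℝ) ≤ T ^ (1 - 1 / 2 : ℝ) :=
    Real.rpow_le_rpow_of_exponent_le (by linarith) (by norm_num)
  have hPS : ∀ s : ℂ, dpoly (pS S ^ r) (T ^ (1 - 1 / 2 : ℝ)) s = PS S s ^ r := by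
    intro s
    rw [H59.dpoly_eq _ _ (fun n hn => ((hpt n).2 hn).trans hx),
      (P5.H59.pow_data LSER.lser s.re (pS S) (H59.pS_asum _ _) r).2.2 s rfl,
      H59.LS_pS _ (hS i)]
  have hD := h1 T e1 (pS S ^ r) (fun n => (hpt n).1)
  -- the norm
  have hfac : (0 : ℝ) ≤ (r.factorial : ℝ) * rs S ^ r :=
    mul_nonneg (by positivity) (pow_nonneg (H31.rs_nonneg _) _)
  have hN := H31.sum_le_of_nn _ _ hfac ((hACN S (hS i)).2 r)
    (Finset.Icc 1 ⌊T ^ (1 - 1 / 2 : ℝ)⌋₊)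
  have hdinv : 1 ≤ (1 / dl T i) ^ 2 := by
    have : 1 ≤ 1 / dl T i := by
      rw [le_div_iff₀ hd0]
      linarith
    exact one_le_pow₀ this
  have hlast : (r.factorial : ℝ) * rs S ^ r ≤ C5 * dl T i * RJ T i ^ (2 * r) := by
    rcases Nat.eq_zero_or_pos i with h | h
    · rw [hwj.symm]
      subst h
      refine le_trans ?_ hD0
      have g1 : rs S ^ r ≤ (ll T + C3) ^ r := pow_le_pow_left₀ (H31.rs_nonneg _) hB0 _
      have g2 : (1 : ℝ) ≤ 2 ^ r := one_le_pow₀ (by norm_num)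
      have g3 : (1 : ℝ) ≤ Real.exp (2 * (ll T + C3)) := Real.one_le_exp (by positivity)
      have g4 : (0 : ℝ) ≤ (r.factorial : ℝ) * (ll T + C3) ^ r := by positivity
      calc (r.factorial : ℝ) * rs S ^ r
          ≤ (r.factorial : ℝ) * (ll T + C3) ^ r := by gcongr
        _ = 1 * (1 * ((r.factorial : ℝ) * (ll T + C3) ^ r)) * 1 := by ring
        _ ≤ Real.exp (2 * (ll T + C3)) * (2 ^ r * ((r.factorial : ℝ) * (ll T + C3) ^ r)) *
            (1 / dl T 0) ^ 2 := by gcongr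
        _ = _ := by ring
    · rw [hwj.symm]
      refine le_trans ?_ (hD1 i h hi.le)
      have g1 : rs S ^ r ≤ (4 : ℝ) ^ r :=
        pow_le_pow_left₀ (H31.rs_nonneg _) ((hB1 h).trans (by norm_num)) _
      calc (r.factorial : ℝ) * rs S ^ r
          ≤ (r.factorial : ℝ) * 4 ^ r := by gcongr
        _ = 4 ^ r * (r.factorial : ℝ) * 1 := by ring
        _ ≤ 4 ^ r * (r.factorial : ℝ) * (1 / dl T i) ^ 2 := by gcongr
  have hRp : 1 ≤ RJ T i ^ (2 * r) := one_le_pow₀ hR1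
  have hRp0 : 0 < RJ T i ^ (2 * r) := lt_of_lt_of_le one_pos hRp
  -- the weight
  have hcG := cG_ge hT3 hll
  have hX : 0 ≤ cG T * Real.log T := le_trans (sq_nonneg _) hcG
  have hdc : 1 ≤ dl T i * (cG T * Real.log T) := by
    have h6 : 1 / ll T ^ 2 ≤ dl T i := by
      unfold dl
      exact div_le_div_of_nonneg_right (Real.one_le_exp (Nat.cast_nonneg i)) (sq_nonneg _)
    calc (1 : ℝ) = 1 / ll T ^ 2 * ll T ^ 2 := by
          field_simp
      _ ≤ dl T i * (cG T * Real.log T) := mul_le_mul h6 hcG (sq_nonneg _) hd0.le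
  -- Chebyshev
  have hfin : (zset T).Finite := P4.H30.zfac.2.2.2.2.2.2 T
  have hch := cheb hfin (fun γ => (mz γ : ℝ) * wt T γ)
    (fun γ => ‖dpoly (pS S ^ r) (T ^ (1 - 1 / 2 : ℝ)) (1 / 2 + γ * I)‖ ^ 2)
    (fun γ => mul_nonneg (Nat.cast_nonneg _) (Real.exp_pos _).le) (fun γ => sq_nonneg _)
    {γ | γ ∈ zset T ∧ RJ T i < ‖PS S (1 / 2 + γ * I)‖} (fun γ hγ => hγ.1)
    (RJ T i ^ (2 * r)) (by
      intro γ hγ
      rw [hPS, norm_pow, ← pow_mul, mul_comm r 2]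
      exact pow_le_pow_left₀ (by linarith) hγ.2.le _)
  have hfinal : RJ T i ^ (2 * r) * ∑ᶠ γ ∈ {γ | γ ∈ zset T ∧ RJ T i < ‖PS S (1 / 2 + γ * I)‖},
      (mz γ : ℝ) * wt T γ ≤
      RJ T i ^ (2 * r) * (C1 * (C5 + 1) * dl T i * (cG T * Real.log T)) := by
    refine hch.trans (hD.trans ?_)
    calc C1 * (cG T * Real.log T *
          ∑ n ∈ Finset.Icc 1 ⌊T ^ (1 - 1 / 2 : ℝ)⌋₊, (pS S ^ r) n ^ 2 / (n : ℝ) + 1)
        ≤ C1 * (cG T * Real.log T * (C5 * dl T i * RJ T i ^ (2 * r)) +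
            dl T i * (cG T * Real.log T) * RJ T i ^ (2 * r)) := by
          refine mul_le_mul_of_nonneg_left (add_le_add ?_ ?_) hC1.le
          · exact mul_le_mul_of_nonneg_left (hN.trans hlast) hX
          · calc (1 : ℝ) = 1 * 1 := by norm_num
              _ ≤ dl T i * (cG T * Real.log T) * RJ T i ^ (2 * r) :=
                mul_le_mul hdc hRp zero_le_one (le_trans zero_le_one hdc)
      _ = RJ T i ^ (2 * r) * (C1 * (C5 + 1) * dl T i * (cG T * Real.log T)) := by ring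
  exact le_of_mul_le_mul_left hfinal hRp0

end Pool.Agent.Lib.MP_6bc78b_nt.MS.QZ.H19
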