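import Pool.Agent.Lib.MP_6bc78b_nt.MS.QZ.Iface
import Pool.Agent.Lib.MP_6bc78b_nt.MS.P4.H70.QSL

/-! Project MS, Part QZ, module LIM (helper19): the two moments of `v`. -/

set_option autoImplicit false

open Complex Filter Topology ArithmeticFunction

namespace Pool.Agent.Lib.MP_6bc78b_nt.MS.QZ.H19

open Pool.Agent.Lib.MP_6bc78b_nt.MS Pool.Agent.Lib.MP_6bc78b_nt.MS.QZ
open Pool.Agent.Lib.MP_6bc78b_nt.MS.P4.H70

/-- (LIM) the two moments of `v`. -/
theorem lim (hZV : ZVStatement) (hZVV : ZVVStatement) (hNP : NPStatement) (hLV : LVStatement)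
    (hLVV : LVVStatement) : LimStatement := by
  intro th c1 c2 hth0 hth
  have np := hNP th (1 / 2) c1 c2 hth0 hth (by norm_num) (by norm_num)
  constructor
  · have n0 := np (fun _ => La * lg) ⟨La, lg, 1, Or.inr rfl, Or.inr rfl, Or.inl rfl,
      Or.inl fun T => by rw [mul_one]⟩ 0
    have n1 := np (fun _ => lg) ⟨1, lg, 1, Or.inl rfl, Or.inr rfl, Or.inl rfl,
      Or.inl fun T => by rw [mul_one, one_mul]⟩ 1
    have n2 := np (fun _ => one) ⟨1, one, 1, Or.inl rfl, Or.inl rfl, Or.inl rfl,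
      Or.inl fun T => by rw [mul_one, one_mul]⟩ 2
    have nn := comb 1 2 1 n0 n1 n2
    simp only [Complex.ofReal_one, one_mul] at nn
    have e2 : ((2 : ℝ) : ℂ) = 2 := by norm_num
    rw [e2] at nn
    exact lim_of 2 (by norm_num) (re_add (hZV th c1 c2 hth0 hth) nn) (hLV th c1 c2 hth0 hth)
  · have n0 := np (fun T => La * lg * lg * bet th c1 c2 T) ⟨La, lg, lg, Or.inr rfl, Or.inr rfl,
      Or.inr (Or.inr rfl), Or.inr (Or.inl fun T => rfl)⟩ 0
    have n1 := np (fun T => lg * lg * bet th c1 c2 T) ⟨1, lg, lg, Or.inl rfl, Or.inr rfl,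
      Or.inr (Or.inr rfl), Or.inr (Or.inl fun T => by rw [one_mul])⟩ 1
    have n2 := np (fun T => one * lg * bet th c1 c2 T) ⟨1, one, lg, Or.inl rfl, Or.inl rfl,
      Or.inr (Or.inr rfl), Or.inr (Or.inl fun T => by rw [one_mul])⟩ 2
    have nn := comb 2 3 1 n0 n1 n2
    simp only [Complex.ofReal_one, one_mul] at nn
    have e2 : ((2 : ℝ) : ℂ) = 2 := by norm_num
    have e3 : ((3 : ℝ) : ℂ) = 3 := by norm_num
    rw [e2, e3] at nn
    have nr := (Complex.continuous_re.tendsto _).comp nn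
    simp only [Complex.zero_re] at nr
    have hs := (hZVV th c1 c2 hth0 hth).add nr
    rw [add_zero] at hs
    have hs' : Tendsto (fun T : ℝ => ((ZS T (fun s => vv th c1 c2 T s *
        (starRingEnd ℂ) (vv th c1 c2 T s))).re
        + -(2 * Psum th c1 c2 T 0 (La * lg * lg * bet th c1 c2 T)
          - 3 * Psum th c1 c2 T 1 (lg * lg * bet th c1 c2 T)
          + Psum th c1 c2 T 2 (one * lg * bet th c1 c2 T))) / T) atTop (𝓝 0) := by
      refine hs.congr fun T => ?_
      simp only [Function.comp, Complex.div_ofReal_re, Complex.sub_re, Complex.ofReal_re]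
      ring
    refine lim_of 3 (by norm_num) hs' ?_
    refine ((hLVV th c1 c2 hth0 hth).neg).congr fun T => ?_
    rw [neg_div]

end Pool.Agent.Lib.MP_6bc78b_nt.MS.QZ.H19
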